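import Pool.Agent.Q205.Ord.Excess

/-! General weight: the smallest slopes of the parts, and the slopes common to the Newton polygon and the
Hodge polygon. -/

set_option autoImplicit false
set_option linter.all false

namespace Pool.Agent.Q205.Ord

open NumberField IsDedekindDomain Polynomial Filter Topology
open Pool.Agent.W401.Cheb Pool.Agent.W528.Ord Pool.Agent.TH30.Ord
open Pool.Agent.W528.Ord.MultSystem (mv IsDeg1 IsOver norm_mem frob_pow_dvd)

/-- at least `c` slopes, with multiplicity, are common to the Newton polygon of `F` at `p` and to the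
polygon with the slopes `H`: some multiset `M` of `c` of the slopes in `H` is contained in the multiset
of the slopes of `F` -/
def CommonSlopes (p : ℕ) (F : ℤ[X]) (H : Multiset ℕ) (c : ℕ) : Prop :=
  ∃ (_ : Fact p.Prime) (M : Multiset ℕ), M ≤ H ∧ c ≤ Multiset.card M ∧
    (M.map fun a => (1 / (p : ℝ)) ^ a) ≤
      ((F.map (Int.castRingHom (PadicAlgCl p))).roots.map fun y => ‖y‖)

section small

variable {L : Type*} [NormedField L] [IsUltrametricDist L]

theorem norm_sum_le_exists (M : Multiset L) (h : M ≠ 0) : ∃ x ∈ M, ‖M.sum‖ ≤ ‖x‖ := by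
  induction M using Multiset.induction_on with
  | empty => exact absurd rfl h
  | cons a M ih =>
    rcases eq_or_ne M 0 with rfl | hM
    · exact ⟨a, Multiset.mem_cons_self a 0, by simp⟩
    · obtain ⟨x, hx, hle⟩ := ih hM
      rw [Multiset.sum_cons]
      rcases le_total ‖a‖ ‖M.sum‖ with h1 | h1
      · exact ⟨x, Multiset.mem_cons_of_mem hx,
          (IsUltrametricDist.norm_add_le_max a M.sum).trans ((max_le h1 le_rfl).trans hle)⟩
      · exact ⟨a, Multiset.mem_cons_self a M,
          (IsUltrametricDist.norm_add_le_max a M.sum).trans (max_le le_rfl h1)⟩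

/-- a coefficient is bounded by a product of roots -/
theorem coeff_le_prod (f : L[X]) (hm : f.Monic) (hs : f.Splits) (k : ℕ) (hk : k ≤ f.natDegree) :
    ∃ T : Multiset L, T ≤ f.roots ∧ Multiset.card T = k ∧
      ‖f.coeff (f.natDegree - k)‖ ≤ (T.map fun y => ‖y‖).prod := by
  have hcard : Multiset.card f.roots = f.natDegree := splits_iff_card_roots.mp hs
  have h1 := Polynomial.coeff_eq_esymm_roots_of_card hcard (k := f.natDegree - k) (Nat.sub_le _ _)
  rw [hm.leadingCoeff, one_mul, Nat.sub_sub_self hk] at h1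
  have hne : (f.roots.powersetCard k).map Multiset.prod ≠ 0 := by
    intro h0
    have h2 := congrArg Multiset.card h0
    rw [Multiset.card_map, Multiset.card_powersetCard, Multiset.card_zero, hcard] at h2
    exact (Nat.choose_pos hk).ne' h2
  obtain ⟨x, hx, hle⟩ := norm_sum_le_exists _ hne
  obtain ⟨T, hT, rfl⟩ := Multiset.mem_map.mp hx
  rw [Multiset.mem_powersetCard] at hT
  refine ⟨T, hT.1, hT.2, ?_⟩
  rw [h1, norm_mul, norm_pow, norm_neg, norm_one, one_pow, one_mul]
  have e : ‖T.prod‖ = (T.map fun y => ‖y‖).prod := by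
    have := map_multiset_prod (normHom : L →*₀ ℝ) T
    exact this
  rw [← e]
  exact hle

end small

section

variable {K : Type} [Field K] [NumberField K] {ℓ : ℕ} [Fact ℓ.Prime] {A : MotSystem K ℓ}
  {χ : GK K →* (PadicAlgCl ℓ)ˣ} {S : Finset ℕ} (hA : A.IsMotive χ S)
  {v : HeightOneSpectrum (𝓞 K)} (hv : IsDeg1 S v)

theorem norm_int_val {p : ℕ} [Fact p.Prime] (z : ℤ) (hz : z ≠ 0) :
    ∃ M : ℕ, (p : ℤ) ^ M ∣ z ∧ ‖(z : PadicAlgCl p)‖ = (1 / (p : ℝ)) ^ M := by
  have hp : (p : ℤ).natAbs ≠ 1 := by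
    simpa using (Fact.out : p.Prime).ne_one
  have hfm : FiniteMultiplicity (p : ℤ) z := Int.finiteMultiplicity_iff.mpr ⟨hp, hz⟩
  obtain ⟨c, hc, hnd⟩ := hfm.exists_eq_pow_mul_and_not_dvd
  refine ⟨multiplicity (p : ℤ) z, ⟨c, hc⟩, ?_⟩
  have e1 : (z : PadicAlgCl p) = (p : PadicAlgCl p) ^ (multiplicity (p : ℤ) z) * (c : PadicAlgCl p) := by
    conv_lhs => rw [hc]
    push_cast
    rfl
  have e2 : ‖(c : PadicAlgCl p)‖ = 1 := by
    have h : (c : PadicAlgCl p) = algebraMap ℚ_[p] (PadicAlgCl p) (c : ℚ_[p]) := by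
      rw [map_intCast]
    rw [h, norm_algebraMap']
    have h1 : ¬ ‖(c : ℚ_[p])‖ < 1 := by
      rw [Padic.norm_intCast_lt_one_iff]
      exact hnd
    exact le_antisymm (Padic.norm_int_le_one c) (not_lt.mp h1)
  rw [e1, norm_mul, norm_pow, norm_p, e2, mul_one]

include hA hv in
/-- **the sums of the `k` smallest slopes of the parts** -/
theorem slopes_lt {k : ℕ} (hk : k ≤ A.n) (hb : Below A v k) (p : ℕ) [Fact p.Prime]
    (hpe : Ideal.absNorm v.asIdeal = p) (τ : AlgebraicClosure K →+* PadicAlgCl p) :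
    ∃ (T : (A.E →+* AlgebraicClosure K) → Multiset (PadicAlgCl p)) (M : ℕ),
      (∀ σ, T σ ≤ (A.poly v (τ.comp σ)).roots ∧ Multiset.card (T σ) = k) ∧
      2 * M < A.w * k * Module.finrank ℚ A.E ∧
      (1 / (p : ℝ)) ^ M ≤ ∏ σ, ((T σ).map fun y => ‖y‖).prod := by
  classical
  obtain ⟨hm, hn⟩ := hA.isMonic v hv
  set z : ℤ := Algebra.norm ℤ ((A.P v).coeff (A.n - k)) with hz
  have hz0 : z ≠ 0 := by
    intro h0
    have := hb (A.w * k * Module.finrank ℚ A.E) (by rw [← hz, h0]; exact dvd_zero _)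
    omega
  obtain ⟨M, hM, hnorm⟩ := norm_int_val (p := p) z hz0
  have hpart : ∀ σ : A.E →+* AlgebraicClosure K, ∃ T : Multiset (PadicAlgCl p),
      T ≤ (A.poly v (τ.comp σ)).roots ∧ Multiset.card T = k ∧
      ‖(A.poly v (τ.comp σ)).coeff (A.n - k)‖ ≤ (T.map fun y => ‖y‖).prod := by
    intro σ
    have hdeg : (A.poly v (τ.comp σ)).natDegree = A.n := by
      unfold MotSystem.poly
      rw [hm.natDegree_map, hn]
    have := coeff_le_prod (A.poly v (τ.comp σ)) (hm.map _) (IsAlgClosed.splits _) k (by rw [hdeg]; exact hk)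
    rwa [hdeg] at this
  choose T hT1 hT2 hT3 using hpart
  refine ⟨T, M, fun σ => ⟨hT1 σ, hT2 σ⟩, ?_, ?_⟩
  · apply hb
    rw [hpe]
    exact hM
  · rw [← hnorm]
    have e1 : (z : PadicAlgCl p) = ∏ σ : A.E →+* AlgebraicClosure K,
        (A.poly v (τ.comp σ)).coeff (A.n - k) := by
      have h1 := norm_eq_prod (AlgebraicClosure K) ((A.P v).coeff (A.n - k))
      have h2 := congrArg τ h1
      rw [map_intCast, map_prod] at h2
      rw [hz, h2]
      apply Finset.prod_congr rfl
      intro σ _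
      unfold MotSystem.poly
      rw [coeff_map]
      rfl
    rw [e1, norm_prod]
    exact Finset.prod_le_prod (fun σ _ => norm_nonneg _) (fun σ _ => hT3 σ)

end

section dual

variable {K : Type} [Field K] [NumberField K] {ℓ : ℕ} [Fact ℓ.Prime] {A : MotSystem K ℓ}
  {χ : GK K →* (PadicAlgCl ℓ)ˣ} {S : Finset ℕ} (hA : A.IsMotive χ S)

include hA in
theorem vertex_dual {σ : A.E →+* AlgebraicClosure K} {k : ℕ} (h : A.Vertex σ k) :
    A.Vertex (σ.comp (A.conj : A.E →+* A.E)) (A.n - k) := by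
  obtain ⟨g1, g2, g3, g4, g5⟩ := hA.isHodge σ
  obtain ⟨k1, k2, k3⟩ := h
  refine ⟨by omega, by omega, ?_⟩
  rw [g4]
  have hl : ((A.h σ).map fun a => A.w - a).length = A.n := by rw [List.length_map, g1]
  have e1 : (((A.h σ).map fun a => A.w - a).reverse).getD (A.n - k - 1) 0 =
      A.w - (A.h σ).getD k 0 := by
    rw [List.getD_eq_getElem _ _ (by rw [List.length_reverse, hl]; omega), List.getElem_reverse,
      List.getElem_map, List.getD_eq_getElem _ _ (by omega)]
    congr 2
    rw [hl]; omega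
  have e2 : (((A.h σ).map fun a => A.w - a).reverse).getD (A.n - k) 0 =
      A.w - (A.h σ).getD (k - 1) 0 := by
    rw [List.getD_eq_getElem _ _ (by rw [List.length_reverse, hl]; omega), List.getElem_reverse,
      List.getElem_map, List.getD_eq_getElem _ _ (by omega)]
    congr 2
    rw [hl]; omega
  rw [e1, e2]
  have b1 : (A.h σ).getD k 0 ≤ A.w := by
    rw [List.getD_eq_getElem _ _ (by omega)]
    exact g3 _ (List.getElem_mem _)
  omega

include hA in
theorem conj_conj (σ : A.E →+* AlgebraicClosure K) :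
    (σ.comp (A.conj : A.E →+* A.E)).comp (A.conj : A.E →+* A.E) = σ := by
  obtain ⟨τ⟩ : Nonempty (A.E →+* ℂ) := inferInstance
  have h : ∀ x : A.E, A.conj (A.conj x) = x := by
    intro x
    apply τ.injective
    rw [hA.isConj τ, hA.isConj τ, starRingEnd_self_apply]
  ext x
  change σ (A.conj (A.conj x)) = σ x
  rw [h]

variable {v : HeightOneSpectrum (𝓞 K)} (hv : IsDeg1 S v)
  {Q : Ideal (𝓞 (AlgebraicClosure K))} (hQ : IsOver Q v)

include hA hv hQ in
/-- duality: an excess at `k` gives an excess at `n - k` for the complex conjugate embedding -/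
theorem excess_dual {σ : A.E →+* AlgebraicClosure K} {k : ℕ} (h : σ ∈ excess A v Q k) :
    σ.comp (A.conj : A.E →+* A.E) ∈ excess A v Q (A.n - k) := by
  haveI := hQ.1.isPrime
  refine ⟨vertex_dual hA h.1, ?_⟩
  have hk : k ≤ A.n := h.1.2.1.le
  have hd := MotSystem.dual_E hA hv (A.n - k) (Nat.sub_le _ _)
  rw [Nat.sub_sub_self hk] at hd
  have h5 := congrArg (RingOfIntegers.mapRingHom σ) hd
  rw [map_mul, map_mul, map_pow, map_natCast] at h5
  have h6 : A.cof v k (σ.comp (A.conj : A.E →+* A.E)) * A.cof v 0 σ =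
      (Ideal.absNorm v.asIdeal : 𝓞 (AlgebraicClosure K)) ^ (A.w * (A.n - k)) * A.cof v (A.n - k) σ := h5
  have hc := MotSystem.hp_conj hA σ (A.n - k) (Nat.sub_le _ _)
  rw [Nat.sub_sub_self hk] at hc
  have h7 : LocDvd Q (Ideal.absNorm v.asIdeal)
      (A.hp σ A.n + (A.hp (σ.comp (A.conj : A.E →+* A.E)) (A.n - k) + 1))
      (A.cof v 0 σ * A.cof v k (σ.comp (A.conj : A.E →+* A.E))) := by
    rw [mul_comm, h6]
    obtain ⟨s, hs, y, hy⟩ := h.2
    refine ⟨s, hs, y, ?_⟩
    have e : A.hp σ A.n + (A.hp (σ.comp (A.conj : A.E →+* A.E)) (A.n - k) + 1) =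
        A.w * (A.n - k) + (A.hp σ k + 1) := by omega
    rw [e, pow_add, mul_assoc, ← hy]
    ring
  rw [Nat.sub_sub_self hk]
  exact LocDvd.of_mul hv.1 ((hA.isMazur v hv Q hQ σ).2) h7

/-- `1` if `2 k = n` or if the field of multiplications is totally real, `2` otherwise -/
noncomputable def wt (A : MotSystem K ℓ) (k : ℕ) : ℕ := by
  classical
  exact if 2 * k = A.n ∨ (A.conj : A.E →+* A.E) = RingHom.id A.E then 1 else 2

/-- a bound for the number of the embeddings with an excess, for the Frobenius element `γ` -/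
noncomputable def maxExcess (A : MotSystem K ℓ) (γ : GK K) : ℕ :=
  ∑ k ∈ Finset.Ioc 0 (A.n / 2), wt A k * smallMax A γ k

include hA hv hQ in
theorem card_excess {γ : GK K}
    (hγ : ∀ x : 𝓞 (AlgebraicClosure K), γ • x - x ^ Ideal.absNorm v.asIdeal ∈ Q)
    (hb : HasVertex A → ∀ k, 0 < k → k < A.n → Below A v k) :
    {σ : A.E →+* AlgebraicClosure K | ∃ k, σ ∈ excess A v Q k}.ncard ≤ maxExcess A γ := by
  classical
  have hle : ∀ k, 0 < k → k < A.n → (excess A v Q k).ncard ≤ smallMax A γ k := by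
    intro k hk0 hkn
    by_cases hvx : HasVertex A
    · exact le_smallMax (excess_small hA hv hQ hγ hkn.le (hb hvx k hk0 hkn))
    · have : excess A v Q k = ∅ := by
        ext σ
        simp only [Set.mem_empty_iff_false, iff_false]
        rintro ⟨h1, -⟩
        exact hvx ⟨σ, k, h1⟩
      rw [this, Set.ncard_empty]
      exact Nat.zero_le _
  let f : (A.E →+* AlgebraicClosure K) → (A.E →+* AlgebraicClosure K) :=
    fun σ => σ.comp (A.conj : A.E →+* A.E)
  let Z : ℕ → Set (A.E →+* AlgebraicClosure K) := fun k =>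
    if 2 * k = A.n ∨ (A.conj : A.E →+* A.E) = RingHom.id A.E then excess A v Q k
    else excess A v Q k ∪ f '' excess A v Q k
  have hZ : ∀ k, 0 < k → k < A.n → (Z k).ncard ≤ wt A k * smallMax A γ k := by
    intro k hk0 hkn
    by_cases hc : 2 * k = A.n ∨ (A.conj : A.E →+* A.E) = RingHom.id A.E
    · have e1 : Z k = excess A v Q k := if_pos hc
      have e2 : wt A k = 1 := if_pos hc
      rw [e1, e2, one_mul]
      exact hle k hk0 hkn
    · have e1 : Z k = excess A v Q k ∪ f '' excess A v Q k := if_neg hc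
      have e2 : wt A k = 2 := if_neg hc
      rw [e1, e2, two_mul]
      refine (Set.ncard_union_le _ _).trans (add_le_add (hle k hk0 hkn) ?_)
      exact (Set.ncard_image_le (Set.toFinite _)).trans (hle k hk0 hkn)
  have hsub : {σ : A.E →+* AlgebraicClosure K | ∃ k, σ ∈ excess A v Q k} ⊆
      ⋃ k ∈ Finset.Ioc 0 (A.n / 2), Z k := by
    rintro σ ⟨k, hk⟩
    have hk0 := hk.1.1
    have hkn := hk.1.2.1
    rw [Set.mem_iUnion₂]
    by_cases h2 : k ≤ A.n / 2
    · refine ⟨k, Finset.mem_Ioc.mpr ⟨hk0, h2⟩, ?_⟩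
      by_cases hc : 2 * k = A.n ∨ (A.conj : A.E →+* A.E) = RingHom.id A.E
      · have e1 : Z k = excess A v Q k := if_pos hc
        rw [e1]
        exact hk
      · have e1 : Z k = excess A v Q k ∪ f '' excess A v Q k := if_neg hc
        rw [e1]
        exact Or.inl hk
    · refine ⟨A.n - k, Finset.mem_Ioc.mpr ⟨by omega, by omega⟩, ?_⟩
      have hdual := excess_dual hA hv hQ hk
      by_cases hc : 2 * (A.n - k) = A.n ∨ (A.conj : A.E →+* A.E) = RingHom.id A.E
      · have e1 : Z (A.n - k) = excess A v Q (A.n - k) := if_pos hc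
        rw [e1]
        rcases hc with hc | hc
        · omega
        · rw [hc, RingHom.comp_id] at hdual
          exact hdual
      · have e1 : Z (A.n - k) = excess A v Q (A.n - k) ∪ f '' excess A v Q (A.n - k) := if_neg hc
        rw [e1]
        exact Or.inr ⟨_, hdual, conj_conj hA σ⟩
  have hfin : (⋃ k ∈ Finset.Ioc 0 (A.n / 2), Z k).Finite := Set.toFinite _
  refine (Set.ncard_le_ncard hsub hfin).trans ?_
  unfold maxExcess
  have hun : ∀ s : Finset ℕ, (∀ k ∈ s, 0 < k ∧ k < A.n) →
      (⋃ k ∈ s, Z k).ncard ≤ ∑ k ∈ s, wt A k * smallMax A γ k := by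
    intro s
    induction s using Finset.induction_on with
    | empty => intro _; simp
    | insert a s ha ih =>
      intro hs
      rw [Finset.sum_insert ha, Finset.set_biUnion_insert]
      refine (Set.ncard_union_le _ _).trans (add_le_add ?_ ?_)
      · exact hZ a (hs a (Finset.mem_insert_self a s)).1 (hs a (Finset.mem_insert_self a s)).2
      · exact ih (fun k hk => hs k (Finset.mem_insert_of_mem hk))
  rcases Nat.eq_zero_or_pos A.n with h0 | h0
  · have : Finset.Ioc 0 (A.n / 2) = ∅ := by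
      rw [h0]; rfl
    rw [this]
    simp
  · apply hun
    intro k hk
    rw [Finset.mem_Ioc] at hk
    exact ⟨hk.1, by omega⟩

end dual

section family

variable {K : Type} [Field K] [NumberField K] {ℓ : ℕ} [Fact ℓ.Prime] {ι : Type} [Fintype ι]
  (A : ι → MotSystem K ℓ) (m : ι → ℕ) (χ : GK K →* (PadicAlgCl ℓ)ˣ) (S : Finset ℕ)
  (hA : ∀ i, (A i).IsMotive χ S)

/-- the number of common slopes given by the element `γ` -/
noncomputable def commonBound (γ : GK K) : ℕ :=
  ∑ i, m i * ((A i).n * (Module.finrank ℚ (A i).E - maxExcess (A i) γ))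

include hA in
theorem common_of {v : HeightOneSpectrum (𝓞 K)} (hv : GoodPl A S v)
    {Q : Ideal (𝓞 (AlgebraicClosure K))} (hQ : IsOver Q v) {γ : GK K}
    (hγ : ∀ x : 𝓞 (AlgebraicClosure K), γ • x - x ^ Ideal.absNorm v.asIdeal ∈ Q) (G : ℤ[X])
    (hG : G.map (Int.castRingHom (AlgebraicClosure K)) = MotSystem.prodPoly A m v) :
    CommonSlopes (Ideal.absNorm v.asIdeal) G (MotSystem.slopes A m) (commonBound A m γ) := by
  classical
  obtain ⟨p, hpe⟩ : ∃ p, Ideal.absNorm v.asIdeal = p := ⟨_, rfl⟩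
  have hpp : p.Prime := hpe ▸ hv.1.1
  haveI : Fact p.Prime := ⟨hpp⟩
  have hpQ := norm_mem hv.1.1 hQ.2
  rw [hpe] at hpQ
  obtain ⟨τ, hτ⟩ := exists_tau (p := p) Q hQ.1 hpQ
  have hG2 : G.map (Int.castRingHom (PadicAlgCl p)) =
      ∏ i, ∏ σ : (A i).E →+* AlgebraicClosure K, ((A i).poly v (τ.comp σ)) ^ m i := by
    have e1 : τ.comp (Int.castRingHom (AlgebraicClosure K)) = Int.castRingHom (PadicAlgCl p) :=
      RingHom.ext_int _ _
    rw [← e1, ← Polynomial.map_map, hG]
    unfold MotSystem.prodPoly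
    rw [Polynomial.map_prod]
    apply Finset.prod_congr rfl
    intro i _
    rw [Polynomial.map_prod]
    apply Finset.prod_congr rfl
    intro σ _
    unfold MotSystem.poly
    rw [Polynomial.map_pow, Polynomial.map_map]
    rfl
  have hne : ∀ i (σ : (A i).E →+* AlgebraicClosure K), (A i).poly v (τ.comp σ) ≠ 0 := by
    intro i σ
    obtain ⟨hm, hn⟩ := (hA i).isMonic v hv.1
    exact (hm.map _).ne_zero
  -- the ordinary embeddings
  let O : ∀ i, Finset ((A i).E →+* AlgebraicClosure K) := fun i =>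
    Finset.univ.filter fun σ => ∀ k, σ ∉ excess (A i) v Q k
  have hroots : ((G.map (Int.castRingHom (PadicAlgCl p))).roots.map fun y => ‖y‖) =
      ∑ i, m i • ∑ σ : (A i).E →+* AlgebraicClosure K,
        (((A i).poly v (τ.comp σ)).roots.map fun y => ‖y‖) := by
    rw [hG2, MotSystem.roots_prod_norm _ _ (fun i _ => Finset.prod_ne_zero_iff.mpr fun σ _ =>
      pow_ne_zero _ (hne i σ))]
    apply Finset.sum_congr rfl
    intro i _
    rw [MotSystem.roots_prod_norm _ _ (fun σ _ => pow_ne_zero _ (hne i σ)), Finset.smul_sum]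
    apply Finset.sum_congr rfl
    intro σ _
    rw [roots_pow, Multiset.map_nsmul]
  have hord : ∀ i, ∀ σ ∈ O i, (((A i).poly v (τ.comp σ)).roots.map fun y => ‖y‖) =
      ((A i).h σ : Multiset ℕ).map fun a => (1 / (p : ℝ)) ^ a := by
    intro i σ hσ
    have h1 : ∀ k, σ ∉ excess (A i) v Q k := (Finset.mem_filter.mp hσ).2
    exact MotSystem.roots_part (hA i) hv.1 hQ hpe hτ σ (fun k hk hd => h1 k ⟨hk, hd⟩)
  have hcount : ∀ i, Module.finrank ℚ (A i).E - maxExcess (A i) γ ≤ (O i).card := by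
    intro i
    have h0 := card_excess (hA i) hv.1 hQ hγ (fun hvx k h1 h2 => hv.2 i hvx k h1 h2)
    have h1 : (Finset.univ : Finset ((A i).E →+* AlgebraicClosure K)) ⊆ O i ∪
        (Set.toFinite {σ : (A i).E →+* AlgebraicClosure K | ∃ k, σ ∈ excess (A i) v Q k}).toFinset := by
      intro σ _
      rw [Finset.mem_union]
      by_cases h : ∀ k, σ ∉ excess (A i) v Q k
      · exact Or.inl (Finset.mem_filter.mpr ⟨Finset.mem_univ _, h⟩)
      · right
        push Not at h
        rw [Set.Finite.mem_toFinset]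
        exact h
    have h2 := (Finset.card_le_card h1).trans (Finset.card_union_le _ _)
    rw [Finset.card_univ, NumberField.Embeddings.card, ← Set.ncard_eq_toFinset_card] at h2
    omega
  rw [hpe]
  refine ⟨inferInstance, ∑ i, m i • ∑ σ ∈ O i, ((A i).h σ : Multiset ℕ), ?_, ?_, ?_⟩
  · unfold MotSystem.slopes
    apply Finset.sum_le_sum
    intro i _
    apply nsmul_le_nsmul_right
    exact Finset.sum_le_sum_of_subset (Finset.subset_univ _)
  · rw [Multiset.card_sum]
    unfold commonBound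
    apply Finset.sum_le_sum
    intro i _
    rw [Multiset.card_nsmul]
    apply Nat.mul_le_mul_left
    rw [Multiset.card_sum]
    have e : ∀ σ ∈ O i, Multiset.card ((A i).h σ : Multiset ℕ) = (A i).n := by
      intro σ _
      rw [Multiset.coe_card, ((hA i).isHodge σ).1]
    rw [Finset.sum_congr rfl e, Finset.sum_const, smul_eq_mul, mul_comm]
    exact Nat.mul_le_mul_right _ (hcount i)
  · rw [hroots, MotSystem.map_sum_multiset]
    apply Finset.sum_le_sum
    intro i _
    rw [Multiset.map_nsmul, MotSystem.map_sum_multiset]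
    apply nsmul_le_nsmul_right
    rw [← Finset.sum_congr rfl (hord i)]
    exact Finset.sum_le_sum_of_subset (Finset.subset_univ _)

end family

end Pool.Agent.Q205.Ord
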