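import Pool.Agent.Q205.Ord.Final

/-! General weight: the coefficients of the Frobenius polynomials at a set of places of density one, the
embeddings with an excess, and stable sets. -/

set_option autoImplicit false
set_option linter.all false

namespace Pool.Agent.Q205.Ord

open NumberField IsDedekindDomain Polynomial Filter Topology
open Pool.Agent.W401.Cheb Pool.Agent.W528.Ord Pool.Agent.TH30.Ord
open Pool.Agent.W528.Ord.MultSystem (mv IsDeg1 IsOver norm_mem frob_pow_dvd)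

section

variable {K : Type} [Field K] [NumberField K] {ℓ : ℕ} [Fact ℓ.Prime]

/-- the exponent of `p = N v` in the norm of the coefficient of `T ^ (n - k)` of the Frobenius polynomial
is smaller than half of `w k [E : ℚ]` -/
def Below (A : MotSystem K ℓ) (v : HeightOneSpectrum (𝓞 K)) (k : ℕ) : Prop :=
  ∀ M : ℕ, (Ideal.absNorm v.asIdeal : ℤ) ^ M ∣ Algebra.norm ℤ ((A.P v).coeff (A.n - k)) →
    2 * M < A.w * k * Module.finrank ℚ A.E

/-- the Hodge polygon of some part has a vertex: there are at least two different Hodge slopes -/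
def HasVertex (A : MotSystem K ℓ) : Prop :=
  ∃ (σ : A.E →+* AlgebraicClosure K) (k : ℕ), A.Vertex σ k

/-- the embeddings for which `k` is a vertex of the Hodge polygon which does not lie on the Newton
polygon (the valuation at `Q` of the coefficient is larger) -/
def excess (A : MotSystem K ℓ) (v : HeightOneSpectrum (𝓞 K)) (Q : Ideal (𝓞 (AlgebraicClosure K)))
    (k : ℕ) : Set (A.E →+* AlgebraicClosure K) :=
  {σ | A.Vertex σ k ∧ LocDvd Q (Ideal.absNorm v.asIdeal) (A.hp σ k + 1) (A.cof v (A.n - k) σ)}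

/-- sets of embeddings with the vertex `k`, stable under `γ` and, if `2 k = n`, under complex
conjugation, with fewer elements than half the Hodge defect at `k` -/
def Small (A : MotSystem K ℓ) (γ : GK K) (k : ℕ) (B : Set (A.E →+* AlgebraicClosure K)) : Prop :=
  (∀ σ ∈ B, mv γ σ ∈ B) ∧ (2 * k = A.n → ∀ σ ∈ B, σ.comp (A.conj : A.E →+* A.E) ∈ B) ∧
    (∀ σ ∈ B, A.Vertex σ k) ∧ 2 * (B.ncard : ℤ) < A.defect k

/-- the largest number of elements of such a set (`0` if there is none) -/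
noncomputable def smallMax (A : MotSystem K ℓ) (γ : GK K) (k : ℕ) : ℕ :=
  sSup {b | ∃ B : Set (A.E →+* AlgebraicClosure K), Small A γ k B ∧ B.ncard = b}

theorem small_bdd (A : MotSystem K ℓ) (γ : GK K) (k : ℕ) :
    BddAbove {b | ∃ B : Set (A.E →+* AlgebraicClosure K), Small A γ k B ∧ B.ncard = b} := by
  refine ⟨Nat.card (A.E →+* AlgebraicClosure K), ?_⟩
  rintro b ⟨B, -, rfl⟩
  exact Set.ncard_le_card B

theorem le_smallMax {A : MotSystem K ℓ} {γ : GK K} {k : ℕ} {B : Set (A.E →+* AlgebraicClosure K)}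
    (h : Small A γ k B) : B.ncard ≤ smallMax A γ k :=
  le_csSup (small_bdd A γ k) ⟨B, h, rfl⟩

theorem smallMax_le {A : MotSystem K ℓ} {γ γ' : GK K} {k : ℕ}
    (h : ∀ B : Set (A.E →+* AlgebraicClosure K), Small A γ k B →
      ∃ B' : Set (A.E →+* AlgebraicClosure K), Small A γ' k B' ∧ B.ncard = B'.ncard) :
    smallMax A γ k ≤ smallMax A γ' k := by
  unfold smallMax
  rcases Set.eq_empty_or_nonempty
    {b | ∃ B : Set (A.E →+* AlgebraicClosure K), Small A γ k B ∧ B.ncard = b} with h0 | h0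
  · rw [h0]
    simp
  · apply csSup_le h0
    rintro b ⟨B, hB, rfl⟩
    obtain ⟨B', hB', e⟩ := h B hB
    rw [e]
    exact le_smallMax hB'

theorem vertex_mv {A : MotSystem K ℓ}
    (hr : ∀ (γ : GK K) (σ : A.E →+* AlgebraicClosure K), A.h (mv γ σ) = A.h σ) (γ : GK K)
    (σ : A.E →+* AlgebraicClosure K) (k : ℕ) : A.Vertex (mv γ σ) k ↔ A.Vertex σ k := by
  unfold MotSystem.Vertex
  rw [hr]

theorem mv_conj (A : MotSystem K ℓ) (γ : GK K) (σ : A.E →+* AlgebraicClosure K) :
    mv γ (σ.comp (A.conj : A.E →+* A.E)) = (mv γ σ).comp (A.conj : A.E →+* A.E) :=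
  MultSystem.mv_comp γ σ _

theorem smallMax_conj {A : MotSystem K ℓ}
    (hr : ∀ (γ : GK K) (σ : A.E →+* AlgebraicClosure K), A.h (mv γ σ) = A.h σ) (γ τ : GK K) (k : ℕ) :
    smallMax A (τ * γ * τ⁻¹) k ≤ smallMax A γ k := by
  apply smallMax_le
  rintro B ⟨h1, h2, h3, h4⟩
  have e : (mv τ⁻¹ '' B).ncard = B.ncard :=
    Set.ncard_image_of_injective B (MultSystem.mv_inj τ⁻¹)
  refine ⟨mv τ⁻¹ '' B, ⟨?_, ?_, ?_, ?_⟩, e.symm⟩
  · rintro _ ⟨σ, hσ, rfl⟩
    refine ⟨mv (τ * γ * τ⁻¹) σ, h1 σ hσ, ?_⟩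
    rw [← MultSystem.mv_mul, ← MultSystem.mv_mul]
    congr 1
    group
  · rintro h0 _ ⟨σ, hσ, rfl⟩
    exact ⟨σ.comp (A.conj : A.E →+* A.E), h2 h0 σ hσ, mv_conj A τ⁻¹ σ⟩
  · rintro _ ⟨σ, hσ, rfl⟩
    rw [vertex_mv hr]
    exact h3 σ hσ
  · rw [e]
    exact h4

theorem smallMax_fix {ι : Type} [Fintype ι] (A : ι → MotSystem K ℓ) (i : ι) {γ u : GK K}
    (hu : u ∈ MotSystem.fixU A) (k : ℕ) :
    smallMax (A i) (γ * u) k ≤ smallMax (A i) γ k := by
  apply smallMax_le
  rintro B ⟨h1, h2, h3, h4⟩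
  refine ⟨B, ⟨?_, h2, h3, h4⟩, rfl⟩
  intro σ hσ
  have := h1 σ hσ
  rwa [MultSystem.mv_mul, hu i σ] at this

section one

variable {A : MotSystem K ℓ} {χ : GK K →* (PadicAlgCl ℓ)ˣ} {S : Finset ℕ} (hA : A.IsMotive χ S)

include hA in
/-- **the coefficients of the Frobenius polynomials** -/
theorem dens_not_below (hv : HasVertex A) (k : ℕ) (hk0 : 0 < k) (hkn : k < A.n) :
    Tendsto (dens fun v : HeightOneSpectrum (𝓞 K) => IsDeg1 S v ∧ ¬ Below A v k) atTop (𝓝 0) := by
  have hns := hA.nonScalar hv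
  refine engine A.ρ χ hA.isCont.1 hA.isCont.2 hA.connected k A.w hk0 hkn A.P
    (fun v => IsDeg1 S v)
    (fun v hv => hv.1) (fun v hv => (hA.isMonic v hv).1)
    (fun v hv => (hA.isMonic v hv).2)
    (fun v hv τ α h => hA.isWeil v hv τ α h)
    (fun v hv σ hσ τ => (hA.isCompat v hv σ hσ).2 τ)
    (fun v hv σ hσ => (hA.isCompat v hv σ hσ).1) ?_ (fun v => ¬ Below A v k) ?_
  · obtain ⟨v, hv, τ, hα⟩ := hns
    exact ⟨v, hv, τ, hα⟩
  · intro v hv hb
    unfold Below at hb
    push Not at hb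
    obtain ⟨M, h1, h2⟩ := hb
    exact ⟨M, h2, h1⟩

variable {v : HeightOneSpectrum (𝓞 K)} (hv : IsDeg1 S v)
  {Q : Ideal (𝓞 (AlgebraicClosure K))} (hQ : IsOver Q v)

include hA hv hQ in
/-- the sum of lower bounds for the valuations -/
theorem sum_below {k : ℕ} (hb : Below A v k) (m : (A.E →+* AlgebraicClosure K) → ℕ)
    (hm : ∀ σ, LocDvd Q (Ideal.absNorm v.asIdeal) (m σ) (A.cof v (A.n - k) σ)) :
    2 * ∑ σ, m σ < A.w * k * Module.finrank ℚ A.E := by
  classical
  haveI := hQ.1.isPrime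
  have hp := norm_mem hv.1 hQ.2
  have h2 := LocDvd.prod Finset.univ m (fun σ => A.cof v (A.n - k) σ) (fun σ _ => hm σ)
  have h3 : ∏ σ : A.E →+* AlgebraicClosure K, A.cof v (A.n - k) σ =
      ((Algebra.norm ℤ ((A.P v).coeff (A.n - k)) : ℤ) : 𝓞 (AlgebraicClosure K)) :=
    (norm_eq_prod_int (AlgebraicClosure K) _).symm
  rw [h3] at h2
  exact hb _ (h2.int hv.1 hp)

include hA hv hQ in
/-- **the embeddings with an excess are fewer than half the Hodge defect** -/
theorem excess_lt {k : ℕ} (hk : k ≤ A.n) (hb : Below A v k) :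
    2 * ((excess A v Q k).ncard : ℤ) < A.defect k := by
  classical
  haveI := hQ.1.isPrime
  let m : (A.E →+* AlgebraicClosure K) → ℕ := fun σ =>
    A.hp σ k + (if σ ∈ excess A v Q k then 1 else 0)
  have hm : ∀ σ, LocDvd Q (Ideal.absNorm v.asIdeal) (m σ) (A.cof v (A.n - k) σ) := by
    intro σ
    by_cases hσ : σ ∈ excess A v Q k
    · have : m σ = A.hp σ k + 1 := by
        change A.hp σ k + (if σ ∈ excess A v Q k then 1 else 0) = _
        rw [if_pos hσ]
      rw [this]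
      exact hσ.2
    · have : m σ = A.hp σ k := by
        change A.hp σ k + (if σ ∈ excess A v Q k then 1 else 0) = _
        rw [if_neg hσ, add_zero]
      rw [this]
      exact (hA.isMazur v hv Q hQ σ).1 _ hk
  have h := sum_below hA hv hQ hb m hm
  have h4 : ∑ σ, m σ = ∑ σ, A.hp σ k + (excess A v Q k).ncard := by
    rw [Finset.sum_add_distrib]
    congr 1
    rw [Finset.sum_ite, Finset.sum_const_zero, add_zero, Finset.sum_const, smul_eq_mul, mul_one,
      ← Set.ncard_coe_finset]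
    congr 1
    ext σ
    simp
  rw [h4] at h
  unfold MotSystem.defect
  rw [Finset.sum_sub_distrib, Finset.sum_const, Finset.card_univ, NumberField.Embeddings.card,
    nsmul_eq_mul, ← Finset.mul_sum]
  zify at h
  push_cast at h ⊢
  linarith

include hA hv hQ in
theorem excess_small {γ : GK K}
    (hγ : ∀ x : 𝓞 (AlgebraicClosure K), γ • x - x ^ Ideal.absNorm v.asIdeal ∈ Q) {k : ℕ}
    (hk : k ≤ A.n) (hb : Below A v k) : Small A γ k (excess A v Q k) := by
  refine ⟨?_, ?_, fun σ hσ => hσ.1, excess_lt hA hv hQ hk hb⟩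
  · rintro σ ⟨h1, h2⟩
    refine ⟨(vertex_mv (fun γ σ => (hA.isHodge σ).2.2.2.2 γ) γ σ k).mpr h1, ?_⟩
    exact MotSystem.excess_orb hA hv hQ hγ σ k hk h2 _ ⟨1, Or.inl (by rw [pow_one])⟩
  · rintro h0 σ ⟨h1, h2⟩
    have h3 := MotSystem.excess_orb hA hv hQ hγ σ k hk h2 (σ.comp (A.conj : A.E →+* A.E))
      ⟨0, Or.inr ⟨h0, by rw [pow_zero, MultSystem.mv_one]⟩⟩
    refine ⟨?_, h3⟩
    obtain ⟨g1, g2, g3, g4, g5⟩ := hA.isHodge σ
    obtain ⟨k1, k2, k3⟩ := h1
    refine ⟨k1, k2, ?_⟩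
    rw [g4]
    have hl : ((A.h σ).map fun a => A.w - a).length = A.n := by rw [List.length_map, g1]
    have e1 : (((A.h σ).map fun a => A.w - a).reverse).getD (k - 1) 0 = A.w - (A.h σ).getD k 0 := by
      rw [List.getD_eq_getElem _ _ (by rw [List.length_reverse, hl]; omega), List.getElem_reverse,
        List.getElem_map, List.getD_eq_getElem _ _ (by omega)]
      congr 2
      rw [hl]; omega
    have e2 : (((A.h σ).map fun a => A.w - a).reverse).getD k 0 = A.w - (A.h σ).getD (k - 1) 0 := by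
      rw [List.getD_eq_getElem _ _ (by rw [List.length_reverse, hl]; omega), List.getElem_reverse,
        List.getElem_map, List.getD_eq_getElem _ _ (by omega)]
      congr 2
      rw [hl]; omega
    rw [e1, e2]
    have b1 : (A.h σ).getD k 0 ≤ A.w := by
      rw [List.getD_eq_getElem _ _ (by omega)]
      exact g3 _ (List.getElem_mem _)
    omega

end one

end

section family

variable {K : Type} [Field K] [NumberField K] {ℓ : ℕ} [Fact ℓ.Prime] {ι : Type} [Fintype ι]
  (A : ι → MotSystem K ℓ) (m : ι → ℕ) (χ : GK K →* (PadicAlgCl ℓ)ˣ) (S : Finset ℕ)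
  (hA : ∀ i, (A i).IsMotive χ S)

/-- the place `v` is good: it has degree one, its residue characteristic is not in `S`, and for all `i`
with a vertex and all `0 < k < n` the norm of the coefficient is divisible by few powers of `p` -/
def GoodPl (v : HeightOneSpectrum (𝓞 K)) : Prop :=
  IsDeg1 S v ∧ ∀ i, HasVertex (A i) → ∀ k, 0 < k → k < (A i).n → Below (A i) v k

include hA in
theorem dens_goodPl : Tendsto (dens fun v => ¬ GoodPl A S v) atTop (𝓝 0) := by
  classical
  let bad : (Σ i : ι, ℕ) → HeightOneSpectrum (𝓞 K) → Prop := fun x v => IsDeg1 S v ∧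
    (HasVertex (A x.1) ∧ 0 < x.2 ∧ x.2 < (A x.1).n) ∧ ¬ Below (A x.1) v x.2
  have hbad : ∀ x, Tendsto (dens (bad x)) atTop (𝓝 0) := by
    rintro ⟨i, j⟩
    by_cases hex : HasVertex (A i) ∧ 0 < j ∧ j < (A i).n
    · refine squeeze_zero (fun N => dens_nonneg _ _) (fun N => dens_mono ?_ N)
        (dens_not_below (hA i) hex.1 j hex.2.1 hex.2.2)
      rintro v ⟨hv, -, h⟩
      exact ⟨hv, h⟩
    · have : bad ⟨i, j⟩ = fun _ => False := by
        funext v
        apply propext
        constructor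
        · rintro ⟨-, h1, h2⟩
          exact hex h1
        · exact False.elim
      rw [this]
      exact dens_finite _ (by simp)
  have hun := dens_biUnion (Finset.univ.sigma (fun i : ι => Finset.range (A i).n)) bad (fun x _ => hbad x)
  have h1 := (dens_not_deg1 (K := K) S).add hun
  rw [add_zero] at h1
  refine squeeze_zero (fun N => dens_nonneg _ _) (fun N => ?_) h1
  refine le_trans (dens_mono ?_ N) (dens_or _ _ N)
  intro v hv
  by_cases hd : IsDeg1 S v
  · right
    unfold GoodPl at hv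
    push Not at hv
    obtain ⟨i, hi, j, hj0, hjn, hle⟩ := hv hd
    refine ⟨⟨i, j⟩, ?_, hd, ⟨hi, hj0, hjn⟩, hle⟩
    rw [Finset.mem_sigma]
    exact ⟨Finset.mem_univ _, Finset.mem_range.mpr hjn⟩
  · exact Or.inl hd

include hA in
/-- the places with Frobenius elements which behave like `γ₀` have positive density -/
theorem like_dens' (γ₀ : GK K) : ∃ δ : ℝ, 0 < δ ∧
    Tendsto (dens fun v : HeightOneSpectrum (𝓞 K) => ∃ γ : GK K, IsFrob v γ ∧
      ∀ i k, smallMax (A i) γ k ≤ smallMax (A i) γ₀ k) atTop (𝓝 δ) := by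
  haveI := MotSystem.fixU_normal A
  haveI : Finite (GK K ⧸ MotSystem.fixU A) :=
    Subgroup.quotient_finite_of_isOpen _ (MotSystem.fixU_open A)
  have h := chebK K (MotSystem.fixU A) (MotSystem.fixU_open A)
    {γ | ∀ i k, smallMax (A i) γ k ≤ smallMax (A i) γ₀ k}
    (fun σ hσ τ i k => (smallMax_conj (fun γ σ => ((hA i).isHodge σ).2.2.2.2 γ) σ τ k).trans (hσ i k))
    (fun σ hσ u hu i k => (smallMax_fix A i hu k).trans (hσ i k))
  refine ⟨(((QuotientGroup.mk : GK K → GK K ⧸ MotSystem.fixU A) ''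
      {γ | ∀ i k, smallMax (A i) γ k ≤ smallMax (A i) γ₀ k}).ncard : ℝ) /
    (Nat.card (GK K ⧸ MotSystem.fixU A) : ℝ), ?_, ?_⟩
  · apply div_pos
    · have : 0 < ((QuotientGroup.mk : GK K → GK K ⧸ MotSystem.fixU A) ''
          {γ | ∀ i k, smallMax (A i) γ k ≤ smallMax (A i) γ₀ k}).ncard := by
        rw [Set.ncard_pos (Set.toFinite _)]
        exact ⟨_, γ₀, fun i j => le_refl _, rfl⟩
      exact_mod_cast this
    · exact_mod_cast Nat.card_pos
  · have e : (fun v : HeightOneSpectrum (𝓞 K) => ∃ σ ∈ {γ | ∀ i k, smallMax (A i) γ k ≤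
        smallMax (A i) γ₀ k}, IsFrob v σ) = fun v => ∃ γ : GK K, IsFrob v γ ∧
        ∀ i k, smallMax (A i) γ k ≤ smallMax (A i) γ₀ k := by
      funext v
      apply propext
      constructor
      · rintro ⟨σ, h1, h2⟩
        exact ⟨σ, h2, h1⟩
      · rintro ⟨σ, h1, h2⟩
        exact ⟨σ, h2, h1⟩
    rw [e] at h
    exact h

include hA in
theorem lower_like (γ₀ : GK K) : ∃ δ : ℝ, 0 < δ ∧ ∀ᶠ N : ℕ in atTop,
    δ ≤ dens (fun v : HeightOneSpectrum (𝓞 K) => GoodPl A S v ∧ ∃ γ : GK K, IsFrob v γ ∧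
      ∀ i k, smallMax (A i) γ k ≤ smallMax (A i) γ₀ k) N := by
  obtain ⟨δ, hδ, hlim⟩ := like_dens' A χ S hA γ₀
  have h1 := dens_goodPl A χ S hA
  refine ⟨δ / 2, by positivity, ?_⟩
  have e0 := hlim.eventually (lt_mem_nhds (show δ * (3 / 4) < δ by linarith))
  have e1 := h1.eventually (gt_mem_nhds (show (0:ℝ) < δ / 4 by positivity))
  filter_upwards [e0, e1] with N h0 h1
  have hle : dens (fun v : HeightOneSpectrum (𝓞 K) => ∃ γ : GK K, IsFrob v γ ∧
      ∀ i k, smallMax (A i) γ k ≤ smallMax (A i) γ₀ k) N ≤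
      dens (fun v : HeightOneSpectrum (𝓞 K) => GoodPl A S v ∧ ∃ γ : GK K, IsFrob v γ ∧
      ∀ i k, smallMax (A i) γ k ≤ smallMax (A i) γ₀ k) N +
      dens (fun v : HeightOneSpectrum (𝓞 K) => ¬ GoodPl A S v) N := by
    refine le_trans (dens_mono ?_ N) (dens_or _ _ N)
    intro v hv
    by_cases hg : GoodPl A S v
    · exact Or.inl ⟨hg, hv⟩
    · exact Or.inr hg
  linarith

end family

end Pool.Agent.Q205.Ord
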