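import Pool.Agent.Q205.Ord.Tensor

/-! Densities of the places of ordinary reduction, for summands of tensor constructions. -/

set_option autoImplicit false
set_option linter.all false

namespace Pool.Agent.Q205.Ord

open NumberField IsDedekindDomain Polynomial Filter Topology
open Pool.Agent.W401.Cheb Pool.Agent.W528.Ord Pool.Agent.TH30.Ord
open Pool.Agent.W528.Ord.MultSystem (mv IsDeg1 IsOver norm_mem)

theorem ratio_to_one {K : Type} [Field K] [NumberField K] (P : HeightOneSpectrum (𝓞 K) → Prop)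
    (h : Tendsto (dens fun v => ¬ P v) atTop (𝓝 0)) : Tendsto (ratio P) atTop (𝓝 1) := by
  have h0 : Tendsto (fun N => 1 - ratio (fun v => ¬ P v) N) atTop (𝓝 1) := by
    have := (ratio_tendsto (fun v => ¬ P v) 0 h).const_sub 1
    simpa using this
  have h1 := (dens_true' (K := K)).eventually (lt_mem_nhds (show (1/2:ℝ) < 1 by norm_num))
  refine h0.congr' ?_
  filter_upwards [h1] with N hN
  have hf := Pool.Agent.W352.ChAbs.finite_le (K := K) N
  have hc : (Nat.card {v : HeightOneSpectrum (𝓞 K) // Ideal.absNorm v.asIdeal ≤ N} : ℝ) ≠ 0 := by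
    intro h0
    rw [h0, zero_div] at hN
    linarith
  have hfin1 : {v : HeightOneSpectrum (𝓞 K) | Ideal.absNorm v.asIdeal ≤ N ∧ P v}.Finite :=
    hf.subset fun v hv => hv.1
  have hfin2 : {v : HeightOneSpectrum (𝓞 K) | Ideal.absNorm v.asIdeal ≤ N ∧ ¬ P v}.Finite :=
    hf.subset fun v hv => hv.1
  have hsum : Nat.card {v : HeightOneSpectrum (𝓞 K) // Ideal.absNorm v.asIdeal ≤ N ∧ P v} +
      Nat.card {v : HeightOneSpectrum (𝓞 K) // Ideal.absNorm v.asIdeal ≤ N ∧ ¬ P v} =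
      Nat.card {v : HeightOneSpectrum (𝓞 K) // Ideal.absNorm v.asIdeal ≤ N} := by
    have hdisj : Disjoint {v : HeightOneSpectrum (𝓞 K) | Ideal.absNorm v.asIdeal ≤ N ∧ P v}
        {v : HeightOneSpectrum (𝓞 K) | Ideal.absNorm v.asIdeal ≤ N ∧ ¬ P v} := by
      rw [Set.disjoint_left]
      rintro v ⟨-, h1⟩ ⟨-, h2⟩
      exact h2 h1
    have hu := Set.ncard_union_eq hdisj hfin1 hfin2
    have he : {v : HeightOneSpectrum (𝓞 K) | Ideal.absNorm v.asIdeal ≤ N ∧ P v} ∪
        {v : HeightOneSpectrum (𝓞 K) | Ideal.absNorm v.asIdeal ≤ N ∧ ¬ P v} =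
        {v : HeightOneSpectrum (𝓞 K) | Ideal.absNorm v.asIdeal ≤ N} := by
      ext v
      simp only [Set.mem_union, Set.mem_setOf_eq]
      tauto
    rw [he] at hu
    exact hu.symm
  have hsum' : (Nat.card {v : HeightOneSpectrum (𝓞 K) // Ideal.absNorm v.asIdeal ≤ N ∧ P v} : ℝ) +
      (Nat.card {v : HeightOneSpectrum (𝓞 K) // Ideal.absNorm v.asIdeal ≤ N ∧ ¬ P v} : ℝ) =
      (Nat.card {v : HeightOneSpectrum (𝓞 K) // Ideal.absNorm v.asIdeal ≤ N} : ℝ) := by
    exact_mod_cast hsum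
  unfold ratio
  rw [eq_div_iff hc, sub_mul, div_mul_cancel₀ _ hc]
  linarith

theorem ratio_mono {K : Type} [Field K] [NumberField K] {P P' : HeightOneSpectrum (𝓞 K) → Prop}
    (h : ∀ v, P v → P' v) (N : ℕ) : ratio P N ≤ ratio P' N := by
  unfold ratio
  apply div_le_div_of_nonneg_right _ (Nat.cast_nonneg _)
  have hsub : {v : HeightOneSpectrum (𝓞 K) | Ideal.absNorm v.asIdeal ≤ N ∧ P v} ⊆
      {v : HeightOneSpectrum (𝓞 K) | Ideal.absNorm v.asIdeal ≤ N ∧ P' v} := fun v hv => ⟨hv.1, h v hv.2⟩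
  exact_mod_cast Set.ncard_le_ncard hsub
    ((Pool.Agent.W352.ChAbs.finite_le (K := K) N).subset (fun v hv => hv.1))

section

variable {K : Type} [Field K] [NumberField K] {ℓ : ℕ} [Fact ℓ.Prime] {ι : Type} [Fintype ι]
  (A : ι → MotSystem K ℓ) (χ : GK K →* (PadicAlgCl ℓ)ˣ) (S : Finset ℕ) (hA : ∀ i, (A i).IsMotive χ S)

include hA in
theorem ratio_noExcess (h1 : ∀ i, (A i).Admissible 1) : Tendsto (ratio (NoExcess A S)) atTop (𝓝 1) := by
  apply ratio_to_one
  have h2 := (dens_not_deg1 (K := K) S).add (dens_adm A χ S hA)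
  rw [add_zero] at h2
  refine squeeze_zero (fun N => dens_nonneg _ _) (fun N => ?_) h2
  refine le_trans (dens_mono ?_ N) (dens_or _ _ N)
  intro v hv
  by_cases hd : IsDeg1 S v
  · right
    obtain ⟨γ, hγ⟩ := exists_isFrob v
    exact ⟨hd, ⟨γ, hγ, fun i => MotSystem.adm_of_one (h1 i) γ⟩, hv⟩
  · exact Or.inl hd

include hA in
theorem lowerDensity_noExcess : MotSystem.admProportion A ≤ lowerDensity (NoExcess A S) :=
  lowerDensity_ge _ _ (fun ε hε => lower_noExcess A χ S hA ε hε)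

include hA in
theorem lower_down (K₀ : Type) [Field K₀] [NumberField K₀] [Algebra K₀ K]
    (P₀ : HeightOneSpectrum (𝓞 K₀) → Prop)
    (hP : ∀ (v : HeightOneSpectrum (𝓞 K)) (v₀ : HeightOneSpectrum (𝓞 K₀)), NoExcess A S v →
      v.asIdeal.comap (algebraMap (𝓞 K₀) (𝓞 K)) = v₀.asIdeal → P₀ v₀)
    (hγ : ∃ γ : GK K, ∀ i, (A i).Admissible γ) : 0 < lowerDensity P₀ := by
  have hpos := MotSystem.admProportion_pos A hγ
  have hev := lower_noExcess A χ S hA (MotSystem.admProportion A / 2) (by positivity)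
  have hd : (0 : ℝ) < (Module.finrank ℚ K : ℝ) := by exact_mod_cast Module.finrank_pos
  apply lowerDensity_pos _ (MotSystem.admProportion A / 2 / (Module.finrank ℚ K : ℝ)) (by positivity)
  filter_upwards [hev] with N hN
  have h1 := dens_under (K₀ := K₀) (NoExcess A S) P₀ (fun v hv => hv.1.1)
    (fun v v₀ hv h0 => hP v v₀ hv h0) N
  rw [div_le_iff₀ hd, mul_comm]
  have h2 : MotSystem.admProportion A / 2 ≤ MotSystem.admProportion A - MotSystem.admProportion A / 2 := by
    linarith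
  exact (h2.trans hN).trans h1

end

end Pool.Agent.Q205.Ord
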