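import Pool.Agent.W528.Ord.MotDown
import Pool.Agent.TH30.Ord.Bounds

/-! Places at which no part of any piece has an excess at a vertex of its Hodge polygon: density, and
the slopes of all the parts. -/

set_option autoImplicit false
set_option linter.all false

namespace Pool.Agent.Q205.Ord

open NumberField IsDedekindDomain Polynomial Filter Topology
open Pool.Agent.W401.Cheb Pool.Agent.W528.Ord
open Pool.Agent.W528.Ord.MultSystem (mv IsDeg1 IsOver norm_mem)

variable {K : Type} [Field K] [NumberField K] {ℓ : ℕ} [Fact ℓ.Prime] {ι : Type} [Fintype ι]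

/-- the place `v` has degree one and residue characteristic outside `S`, and for some maximal ideal `Q`
above `v` no part of any piece has an excess at a vertex of its Hodge polygon -/
def NoExcess (A : ι → MotSystem K ℓ) (S : Finset ℕ) (v : HeightOneSpectrum (𝓞 K)) : Prop :=
  IsDeg1 S v ∧ ∃ Q, IsOver Q v ∧ ∀ (i : ι) (σ : (A i).E →+* AlgebraicClosure K) (k : ℕ),
    (A i).Vertex σ k → ¬ LocDvd Q (Ideal.absNorm v.asIdeal) ((A i).hp σ k + 1)
      ((A i).cof v ((A i).n - k) σ)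

section

variable (A : ι → MotSystem K ℓ) (χ : GK K →* (PadicAlgCl ℓ)ˣ) (S : Finset ℕ)
  (hA : ∀ i, (A i).IsMotive χ S)

include hA in
theorem dens_adm : Tendsto (dens fun v : HeightOneSpectrum (𝓞 K) => IsDeg1 S v ∧
      (∃ γ : GK K, IsFrob v γ ∧ ∀ i, (A i).Admissible γ) ∧ ¬ NoExcess A S v) atTop (𝓝 0) := by
  classical
  have hun := dens_biUnion (Finset.univ.sigma (fun i : ι => Finset.range (A i).n))
    (fun x : (Σ _ : ι, ℕ) => (A x.1).Bad S x.2) (fun x _ => MotSystem.bad_dens (hA x.1) x.2)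
  refine squeeze_zero (fun N => dens_nonneg _ _) (fun N => dens_mono ?_ N) hun
  rintro v ⟨hv, ⟨γ, ⟨Q, hQ, hQv, hγ⟩, hadm⟩, hno⟩
  by_contra hcon
  apply hno
  refine ⟨hv, Q, ⟨hQ, hQv⟩, ?_⟩
  intro i σ k hk hd
  apply hcon
  refine ⟨⟨i, k⟩, ?_, hv, Q, γ, σ, ⟨hQ, hQv⟩, hγ, hadm i, hk, hd⟩
  rw [Finset.mem_sigma]
  exact ⟨Finset.mem_univ _, Finset.mem_range.mpr hk.2.1⟩

include hA in
/-- **lower density over `K`** -/
theorem lower_noExcess (ε : ℝ) (hε : 0 < ε) :
    ∀ᶠ N : ℕ in atTop, MotSystem.admProportion A - ε ≤ dens (NoExcess A S) N := by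
  have hlim := MotSystem.adm_dens A χ S hA
  have h1 := dens_adm A χ S hA
  have h2 := dens_not_prime (K := K)
  have h3 := dens_finite _ (finite_norm_mem (K := K) S)
  have e0 := hlim.eventually (lt_mem_nhds (show MotSystem.admProportion A - ε / 4 <
    MotSystem.admProportion A by linarith))
  have e1 := h1.eventually (gt_mem_nhds (show (0:ℝ) < ε / 4 by positivity))
  have e2 := h2.eventually (gt_mem_nhds (show (0:ℝ) < ε / 4 by positivity))
  have e3 := h3.eventually (gt_mem_nhds (show (0:ℝ) < ε / 4 by positivity))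
  filter_upwards [e0, e1, e2, e3] with N h0 h1 h2 h3
  have hle : dens (fun v : HeightOneSpectrum (𝓞 K) => ∃ γ : GK K, IsFrob v γ ∧ ∀ i, (A i).Admissible γ) N ≤
      dens (NoExcess A S) N +
      (dens (fun v : HeightOneSpectrum (𝓞 K) => IsDeg1 S v ∧
      (∃ γ : GK K, IsFrob v γ ∧ ∀ i, (A i).Admissible γ) ∧ ¬ NoExcess A S v) N +
      (dens (fun v : HeightOneSpectrum (𝓞 K) => ¬ (Ideal.absNorm v.asIdeal).Prime) N +
      dens (fun v : HeightOneSpectrum (𝓞 K) => Ideal.absNorm v.asIdeal ∈ S) N)) := by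
    refine le_trans (dens_mono (Q := fun v => _ ∨ (_ ∨ (_ ∨ _))) ?_ N)
      (le_trans (dens_or _ _ N) (add_le_add_right (le_trans (dens_or _ _ N)
        (add_le_add_right (dens_or _ _ N) _)) _))
    intro v hv
    by_cases hp : (Ideal.absNorm v.asIdeal).Prime
    · by_cases hS : Ideal.absNorm v.asIdeal ∈ S
      · exact Or.inr (Or.inr (Or.inr hS))
      · by_cases hd : NoExcess A S v
        · exact Or.inl hd
        · exact Or.inr (Or.inl ⟨⟨hp, hS⟩, hv, hd⟩)
    · exact Or.inr (Or.inr (Or.inl hp))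
  linarith

include hA in
/-- the slopes of all the parts -/
theorem exists_tau_parts {v : HeightOneSpectrum (𝓞 K)} (hv : NoExcess A S v) :
    ∃ (p : ℕ) (_ : Fact p.Prime) (τ : AlgebraicClosure K →+* PadicAlgCl p),
      Ideal.absNorm v.asIdeal = p ∧ ∀ (i : ι) (σ : (A i).E →+* AlgebraicClosure K),
        (((A i).poly v σ).roots.map fun x => ‖τ x‖) =
          (((A i).h σ : Multiset ℕ)).map fun a => (1 / (p : ℝ)) ^ a := by
  obtain ⟨hd, Q, hQ, hno⟩ := hv
  obtain ⟨p, hpe⟩ : ∃ p, Ideal.absNorm v.asIdeal = p := ⟨_, rfl⟩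
  have hpp : p.Prime := hpe ▸ hd.1
  haveI : Fact p.Prime := ⟨hpp⟩
  have hpQ := norm_mem hd.1 hQ.2
  rw [hpe] at hpQ
  obtain ⟨τ, hτ⟩ := exists_tau (p := p) Q hQ.1 hpQ
  refine ⟨p, inferInstance, τ, hpe, fun i σ => ?_⟩
  have h := MotSystem.roots_part (hA i) hd hQ hpe hτ σ (fun k hk => hno i σ k hk)
  rw [← h]
  have e : (A i).poly v (τ.comp σ) = ((A i).poly v σ).map τ := by
    unfold MotSystem.poly
    rw [Polynomial.map_map]
    rfl
  rw [e, (IsAlgClosed.splits ((A i).poly v σ)).roots_map τ, Multiset.map_map]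
  rfl

end

end Pool.Agent.Q205.Ord
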