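import Pool.Agent.W528.Ord.Newton

/-! If the sum of two Newton polygons is the sum of two polygons which lie below them, then both
Newton polygons are equal to these polygons. -/

set_option autoImplicit false
set_option linter.all false

namespace Pool.Agent.Q205.Ord

open Polynomial Pool.Agent.W528.Ord

variable {L : Type*} [NormedField L] [IsUltrametricDist L]

theorem gauss_le (f : L[X]) (hm : f.Monic) (hs : f.Splits) (q : ℝ) (hq0 : 0 < q)
    (l : List ℕ) (hlen : l.length = f.natDegree)
    (hle : ∀ k ≤ l.length, ‖f.coeff (l.length - k)‖ ≤ q ^ (l.take k).sum) (r : ℝ) (hr : 0 < r) :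
    (f.roots.map fun y => max r ‖y‖).prod ≤ (l.map fun a => max r (q ^ a)).prod := by
  set v : AbsoluteValue L ℝ := NormedField.toAbsoluteValue L with hv
  have hvn : ∀ x : L, v x = ‖x‖ := fun x => rfl
  have hna : IsNonarchimedean v := fun x y => IsUltrametricDist.norm_add_le_max x y
  have hprod : f = (f.roots.map fun y => X - C y).prod := by
    conv_lhs => rw [hs.eq_prod_roots, hm.leadingCoeff, C_1, one_mul]
  have h1 := Pool.Agent.W518.DN.gn_linear (v := v) hna hr f.roots
  rw [← hprod] at h1
  have h2 : (f.roots.map fun y => max r (v y)).prod = (f.roots.map fun y => max r ‖y‖).prod := rfl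
  rw [← h2, ← h1]
  obtain ⟨i, hi⟩ := exists_eq_gaussNorm v r f
  rw [hi, hvn]
  by_cases hin : i ≤ l.length
  · have h3 := hle (l.length - i) (by omega)
    rw [show l.length - (l.length - i) = i by omega] at h3
    have h5 : (l.map fun a => max r (q ^ a)).prod =
        ((l.take (l.length - i)).map fun a => max r (q ^ a)).prod *
        ((l.drop (l.length - i)).map fun a => max r (q ^ a)).prod := by
      rw [← List.prod_append, ← List.map_append, List.take_append_drop]
    rw [h5]
    have h6 := prod_max_ge q r hq0 hr (l.take (l.length - i))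
    have h7 := prod_max_ge q r hq0 hr (l.drop (l.length - i))
    have h8 : (l.drop (l.length - i)).length = i := by
      rw [List.length_drop]; omega
    rw [h8] at h7
    exact mul_le_mul (h3.trans h6.1) h7.2.1 (by positivity) h6.2.2.le
  · have : f.coeff i = 0 := coeff_eq_zero_of_natDegree_lt (by omega)
    rw [this, norm_zero, zero_mul]
    exact (prod_max_ge q r hq0 hr l).2.2.le

/-- **summands of ordinary objects are ordinary** -/
theorem summand (f f' : L[X]) (hm : f.Monic) (hm' : f'.Monic) (hs : f.Splits) (hs' : f'.Splits)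
    (q : ℝ) (hq0 : 0 < q) (l l' : List ℕ) (hlen : l.length = f.natDegree)
    (hlen' : l'.length = f'.natDegree)
    (hle : ∀ k ≤ l.length, ‖f.coeff (l.length - k)‖ ≤ q ^ (l.take k).sum)
    (hle' : ∀ k ≤ l'.length, ‖f'.coeff (l'.length - k)‖ ≤ q ^ (l'.take k).sum)
    (htot : (f.roots.map fun y => ‖y‖) + (f'.roots.map fun y => ‖y‖) =
      ((l : Multiset ℕ) + (l' : Multiset ℕ)).map fun a => q ^ a) :
    (f.roots.map fun y => ‖y‖) = (l : Multiset ℕ).map fun a => q ^ a := by
  classical
  have key : ∀ r : ℝ, 0 < r → (f.roots.map fun y => max r ‖y‖).prod =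
      (l.map fun a => max r (q ^ a)).prod := by
    intro r hr
    have h1 := gauss_le f hm hs q hq0 l hlen hle r hr
    have h2 := gauss_le f' hm' hs' q hq0 l' hlen' hle' r hr
    have h3 := congrArg (fun M : Multiset ℝ => (M.map fun x => max r x).prod) htot
    simp only [Multiset.map_add, Multiset.prod_add, Multiset.map_map] at h3
    have e1 : ((l : Multiset ℕ).map ((fun x => max r x) ∘ fun a => q ^ a)).prod =
        (l.map fun a => max r (q ^ a)).prod := by
      rw [Multiset.map_coe, Multiset.prod_coe]
      rfl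
    have e2 : ((l' : Multiset ℕ).map ((fun x => max r x) ∘ fun a => q ^ a)).prod =
        (l'.map fun a => max r (q ^ a)).prod := by
      rw [Multiset.map_coe, Multiset.prod_coe]
      rfl
    rw [e1, e2] at h3
    have e3 : (f.roots.map ((fun x => max r x) ∘ fun y => ‖y‖)).prod =
      (f.roots.map fun y => max r ‖y‖).prod := rfl
    have e4 : (f'.roots.map ((fun x => max r x) ∘ fun y => ‖y‖)).prod =
      (f'.roots.map fun y => max r ‖y‖).prod := rfl
    rw [e3, e4] at h3
    have p1 : 0 < (l.map fun a => max r (q ^ a)).prod := (prod_max_ge q r hq0 hr l).2.2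
    have p2 : 0 < (l'.map fun a => max r (q ^ a)).prod := (prod_max_ge q r hq0 hr l').2.2
    have p3 : 0 < (f'.roots.map fun y => max r ‖y‖).prod := by
      apply Multiset.prod_pos
      intro x hx
      obtain ⟨y, -, rfl⟩ := Multiset.mem_map.mp hx
      exact lt_max_of_lt_left hr
    by_contra hne
    have hlt := lt_of_le_of_ne h1 hne
    have h4 : (f.roots.map fun y => max r ‖y‖).prod * (f'.roots.map fun y => max r ‖y‖).prod <
        (l.map fun a => max r (q ^ a)).prod * (l'.map fun a => max r (q ^ a)).prod :=
      mul_lt_mul hlt h2 p3 p1.le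
    exact h4.ne h3
  have hposM : ∀ x ∈ f.roots.map (fun y => ‖y‖), 0 < x := by
    intro x hx
    have hx2 : x ∈ ((l : Multiset ℕ) + (l' : Multiset ℕ)).map fun a => q ^ a := by
      rw [← htot]
      exact Multiset.mem_add.mpr (Or.inl hx)
    obtain ⟨a, -, rfl⟩ := Multiset.mem_map.mp hx2
    positivity
  have hposN : ∀ x ∈ (l : Multiset ℕ).map (fun a => q ^ a), 0 < x := by
    intro x hx
    obtain ⟨a, -, rfl⟩ := Multiset.mem_map.mp hx
    positivity
  obtain ⟨r1, hr1, h1⟩ := exists_lower _ hposM
  obtain ⟨r2, hr2, h2⟩ := exists_lower _ hposN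
  have hcard : Multiset.card f.roots = l.length := by
    rw [hlen]; exact splits_iff_card_roots.mp hs
  refine Pool.Agent.W518.DN.eq_of_prod_max (min r1 r2) (lt_min hr1 hr2) l.length _ _ (by simp [hcard])
    (by simp) (fun x hx => (min_le_left _ _).trans (h1 x hx))
    (fun x hx => (min_le_right _ _).trans (h2 x hx)) ?_
  intro r hr
  have hr0 : 0 < r := lt_of_lt_of_le (lt_min hr1 hr2) hr
  have h3 := key r hr0
  rw [Multiset.map_map, Multiset.map_map, Multiset.map_coe, Multiset.prod_coe]
  exact h3

end Pool.Agent.Q205.Ord
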