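import Pool.Agent.Q205.Ord.NoEx
import Pool.Agent.Q205.Ord.Summand

/-! Tensor products of the parts of the pieces, and their summands. -/

set_option autoImplicit false
set_option linter.all false

namespace Pool.Agent.Q205.Ord

open NumberField IsDedekindDomain Polynomial Filter Topology
open Pool.Agent.W401.Cheb Pool.Agent.W528.Ord
open Pool.Agent.W528.Ord.MultSystem (mv IsDeg1 IsOver norm_mem)

variable {K : Type} [Field K] [NumberField K] {ℓ : ℕ} [Fact ℓ.Prime] {ι : Type} [Fintype ι]

/-- A word stands for a tensor product: its letters are the parts `(i, σ)` of the pieces `A i`, for `σ`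
an embedding of the field of multiplications of `A i`. -/
abbrev Word (A : ι → MotSystem K ℓ) : Type := List (Σ i : ι, ((A i).E →+* AlgebraicClosure K))

/-- the Frobenius eigenvalues, with multiplicity, of the tensor product of the letters of a word -/
noncomputable def wordRoots (A : ι → MotSystem K ℓ) (v : HeightOneSpectrum (𝓞 K)) :
    Word A → Multiset (AlgebraicClosure K)
  | [] => {1}
  | x :: W => ((A x.1).poly v x.2).roots.bind fun a => (wordRoots A v W).map fun b => a * b

/-- the Hodge slopes, with multiplicity, of the tensor product of the letters of a word -/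
def wordSlopes (A : ι → MotSystem K ℓ) : Word A → Multiset ℕ
  | [] => {0}
  | x :: W => ((A x.1).h x.2 : Multiset ℕ).bind fun a => (wordSlopes A W).map fun b => a + b

/-- the Frobenius eigenvalues of the direct sum of the tensor products given by a list of words -/
noncomputable def frobRoots (A : ι → MotSystem K ℓ) (v : HeightOneSpectrum (𝓞 K)) (T : List (Word A)) :
    Multiset (AlgebraicClosure K) := (T.map (wordRoots A v)).sum

/-- the Hodge slopes of the direct sum of the tensor products given by a list of words -/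
def hodgeSlopes (A : ι → MotSystem K ℓ) (T : List (Word A)) : Multiset ℕ :=
  (T.map (wordSlopes A)).sum

/-- Mazur's inequality: `F` is monic, its degree is the number of the slopes in `H`, and its Newton
polygon at `p` lies on or above the polygon with the slopes `H` (the coefficient of `T ^ (b - k)` is
divisible by `p ^ s`, for `s` the sum of the `k` smallest slopes) -/
def Above (p : ℕ) (F : ℤ[X]) (H : Multiset ℕ) : Prop :=
  F.Monic ∧ F.natDegree = Multiset.card H ∧ ∀ k ≤ Multiset.card H,
    (p : ℤ) ^ ((H.sort (· ≤ ·)).take k).sum ∣ F.coeff (Multiset.card H - k)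

section

variable (A : ι → MotSystem K ℓ)

theorem word_norm {v : HeightOneSpectrum (𝓞 K)} {p : ℕ} [Fact p.Prime]
    (τ : AlgebraicClosure K →+* PadicAlgCl p)
    (h : ∀ (i : ι) (σ : (A i).E →+* AlgebraicClosure K),
        (((A i).poly v σ).roots.map fun x => ‖τ x‖) =
          (((A i).h σ : Multiset ℕ)).map fun a => (1 / (p : ℝ)) ^ a) (W : Word A) :
    ((wordRoots A v W).map fun x => ‖τ x‖) = (wordSlopes A W).map fun a => (1 / (p : ℝ)) ^ a := by
  induction W with
  | nil => simp [wordRoots, wordSlopes]
  | cons x W ih =>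
    have e1 : ((wordRoots A v (x :: W)).map fun x => ‖τ x‖) =
        (((A x.1).poly v x.2).roots.map fun a => ‖τ a‖).bind fun s =>
          ((wordRoots A v W).map fun b => ‖τ b‖).map fun t => s * t := by
      rw [wordRoots, Multiset.map_bind, Multiset.bind_map]
      congr 1
      funext a
      rw [Multiset.map_map, Multiset.map_map]
      congr 1
      funext b
      simp only [Function.comp_apply, map_mul, norm_mul]
    have e2 : ((wordSlopes A (x :: W)).map fun a => (1 / (p : ℝ)) ^ a) =
        (((A x.1).h x.2 : Multiset ℕ).map fun a => (1 / (p : ℝ)) ^ a).bind fun s =>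
          ((wordSlopes A W).map fun b => (1 / (p : ℝ)) ^ b).map fun t => s * t := by
      rw [wordSlopes, Multiset.map_bind, Multiset.bind_map]
      congr 1
      funext a
      rw [Multiset.map_map, Multiset.map_map]
      congr 1
      funext b
      simp only [Function.comp_apply, pow_add]
    rw [e1, e2, h, ih]

theorem frob_norm {v : HeightOneSpectrum (𝓞 K)} {p : ℕ} [Fact p.Prime]
    (τ : AlgebraicClosure K →+* PadicAlgCl p)
    (h : ∀ (i : ι) (σ : (A i).E →+* AlgebraicClosure K),
        (((A i).poly v σ).roots.map fun x => ‖τ x‖) =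
          (((A i).h σ : Multiset ℕ)).map fun a => (1 / (p : ℝ)) ^ a) (T : List (Word A)) :
    ((frobRoots A v T).map fun x => ‖τ x‖) = (hodgeSlopes A T).map fun a => (1 / (p : ℝ)) ^ a := by
  induction T with
  | nil => simp [frobRoots, hodgeSlopes]
  | cons W T ih =>
    have e1 : frobRoots A v (W :: T) = wordRoots A v W + frobRoots A v T := by
      simp [frobRoots]
    have e2 : hodgeSlopes A (W :: T) = wordSlopes A W + hodgeSlopes A T := by
      simp [hodgeSlopes]
    rw [e1, e2, Multiset.map_add, Multiset.map_add, ih, word_norm A τ h]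

theorem above_norm {p : ℕ} [Fact p.Prime] {F : ℤ[X]} {H : Multiset ℕ} (h : Above p F H) :
    ∀ k ≤ (H.sort (· ≤ ·)).length,
      ‖(F.map (Int.castRingHom (PadicAlgCl p))).coeff ((H.sort (· ≤ ·)).length - k)‖ ≤
        (1 / (p : ℝ)) ^ ((H.sort (· ≤ ·)).take k).sum := by
  intro k hk
  rw [Multiset.length_sort] at hk ⊢
  obtain ⟨c, hc⟩ := h.2.2 k hk
  rw [coeff_map, hc, map_mul, map_pow, norm_mul, norm_pow]
  have e1 : ‖(Int.castRingHom (PadicAlgCl p)) (p : ℤ)‖ = 1 / (p : ℝ) := by
    have : (Int.castRingHom (PadicAlgCl p)) (p : ℤ) = (p : PadicAlgCl p) := by simp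
    rw [this, norm_p]
  have e2 : ‖(Int.castRingHom (PadicAlgCl p)) c‖ ≤ 1 := by
    rw [eq_intCast]
    exact IsUltrametricDist.norm_intCast_le_one _ _
  rw [e1]
  calc (1 / (p : ℝ)) ^ ((H.sort (· ≤ ·)).take k).sum * ‖(Int.castRingHom (PadicAlgCl p)) c‖
      ≤ (1 / (p : ℝ)) ^ ((H.sort (· ≤ ·)).take k).sum * 1 :=
        mul_le_mul_of_nonneg_left e2 (by positivity)
    _ = _ := mul_one _

/-- **summands of tensor constructions are ordinary** at the places at which no part has an excess -/
theorem newton_summand {v : HeightOneSpectrum (𝓞 K)} {p : ℕ} [Fact p.Prime]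
    (τ : AlgebraicClosure K →+* PadicAlgCl p)
    (h : ∀ (i : ι) (σ : (A i).E →+* AlgebraicClosure K),
        (((A i).poly v σ).roots.map fun x => ‖τ x‖) =
          (((A i).h σ : Multiset ℕ)).map fun a => (1 / (p : ℝ)) ^ a) (T : List (Word A))
    (F F' : ℤ[X]) (H H' : Multiset ℕ) (hF : Above p F H) (hF' : Above p F' H')
    (hT : ((F * F').map (Int.castRingHom (AlgebraicClosure K))).roots = frobRoots A v T)
    (hH : H + H' = hodgeSlopes A T) : NewtonSlopes p F H := by
  refine ⟨inferInstance, ?_⟩
  have hp1 : (0 : ℝ) < 1 / (p : ℝ) := by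
    have : 0 < p := (Fact.out : p.Prime).pos
    positivity
  have e0 : τ.comp (Int.castRingHom (AlgebraicClosure K)) = Int.castRingHom (PadicAlgCl p) :=
    RingHom.ext_int _ _
  have hne : F.map (Int.castRingHom (PadicAlgCl p)) ≠ 0 := (hF.1.map _).ne_zero
  have hne' : F'.map (Int.castRingHom (PadicAlgCl p)) ≠ 0 := (hF'.1.map _).ne_zero
  have h1 : (F.map (Int.castRingHom (PadicAlgCl p))).roots +
      (F'.map (Int.castRingHom (PadicAlgCl p))).roots = (frobRoots A v T).map τ := by
    rw [← roots_mul (mul_ne_zero hne hne'), ← Polynomial.map_mul, ← e0, ← Polynomial.map_map,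
      (IsAlgClosed.splits _).roots_map τ, hT]
  have h2 := congrArg (fun M : Multiset (PadicAlgCl p) => M.map fun y => ‖y‖) h1
  simp only [Multiset.map_add, Multiset.map_map] at h2
  have h3 : ((frobRoots A v T).map ((fun y => ‖y‖) ∘ (τ : AlgebraicClosure K → PadicAlgCl p))) =
      (H + H').map fun a => (1 / (p : ℝ)) ^ a := by
    rw [hH, ← frob_norm A τ h T]
    rfl
  rw [h3] at h2
  have := summand (F.map (Int.castRingHom (PadicAlgCl p))) (F'.map (Int.castRingHom (PadicAlgCl p)))
    (hF.1.map _) (hF'.1.map _) (IsAlgClosed.splits _) (IsAlgClosed.splits _) (1 / (p : ℝ)) hp1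
    (H.sort (· ≤ ·)) (H'.sort (· ≤ ·))
    (by rw [Multiset.length_sort, hF.1.natDegree_map, hF.2.1])
    (by rw [Multiset.length_sort, hF'.1.natDegree_map, hF'.2.1])
    (above_norm hF) (above_norm hF')
    (by rw [Multiset.sort_eq, Multiset.sort_eq]; exact h2)
  rw [Multiset.sort_eq] at this
  exact this

end

end Pool.Agent.Q205.Ord
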